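import Pool.Agent.Helper42.PP.Goals1
import Pool.Agent.Helper35.RD.Kum

/-!
# Project PP (MP_fc6b1e_nt), packet POMG: functionals and elements of type `ω`
-/

set_option autoImplicit false

namespace Pool.Agent.Helper22.PP

open NumberField Polynomial Module IsDedekindDomain
open Pool.Agent.Helper51.RP Pool.Agent.Helper42.RD Pool.Agent.Helper42.PP
open Pool.Agent.Helper35.RD (ordv_mul ordv_pow)

section hom

variable {F A : Type} [Field F] [AddCommGroup A] {f : Fˣ → A}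

theorem hom_one (hf : Hom f) : f 1 = 0 := by
  have h := hf 1 1
  rw [mul_one] at h
  exact left_eq_add.1 h

theorem hom_pow (hf : Hom f) (x : Fˣ) (n : ℕ) : f (x ^ n) = n • f x := by
  induction n with
  | zero => rw [pow_zero, hom_one hf, zero_smul]
  | succ n ih => rw [pow_succ, hf, ih, succ_nsmul]

theorem hom_prod {ι : Type} (hf : Hom f) (s : Finset ι) (g : ι → Fˣ) :
    f (∏ i ∈ s, g i) = ∑ i ∈ s, f (g i) := by
  classical
  induction s using Finset.induction_on with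
  | empty => rw [Finset.prod_empty, Finset.sum_empty, hom_one hf]
  | insert i s hi ih => rw [Finset.prod_insert hi, Finset.sum_insert hi, hf, ih]

end hom

/-- Exponents matter only modulo `p`. -/
theorem pow_congr {p : ℕ} {G : Type} [CommGroup G] (y : G) {n m : ℕ}
    (h : (n : ZMod p) = (m : ZMod p)) : ∃ d : G, y ^ n = y ^ m * d ^ p := by
  have h1 : (((n : ℤ) - m : ℤ) : ZMod p) = 0 := by
    push_cast
    rw [h, sub_self]
  rw [ZMod.intCast_zmod_eq_zero_iff_dvd] at h1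
  obtain ⟨k, hk⟩ := h1
  refine ⟨y ^ k, ?_⟩
  have h2 : (y ^ k) ^ p = y ^ ((n : ℤ) - m) := by
    rw [hk, mul_comm, zpow_mul, zpow_natCast]
  rw [h2, zpow_sub, zpow_natCast, zpow_natCast]
  simp

section

variable {p : ℕ} [hpF : Fact p.Prime] {K K₁ : Type} [Field K] [Field K₁] [Algebra K K₁] {ε : K₁}

theorem act_mul (σ τ : K₁ ≃ₐ[K] K₁) (x : K₁ˣ) : act (σ * τ) x = act σ (act τ x) := rfl

theorem exists_n (hε : IsPrimitiveRoot ε p) (σ : K₁ ≃ₐ[K] K₁) : ∃ n : ℕ, σ ε = ε ^ n := by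
  have : NeZero p := ⟨hpF.out.ne_zero⟩
  have h1 : (σ ε) ^ p = 1 := by rw [← map_pow, hε.pow_eq_one, map_one]
  obtain ⟨n, -, hn⟩ := hε.eq_pow_of_pow_eq_one h1
  exact ⟨n, hn.symm⟩

theorem eps_congr (hε : IsPrimitiveRoot ε p) {n m : ℕ} :
    ε ^ n = ε ^ m ↔ (n : ZMod p) = (m : ZMod p) := by
  obtain ⟨u, rfl⟩ := hε.isUnit hpF.out.ne_zero
  have hu : IsPrimitiveRoot u p := IsPrimitiveRoot.coe_units_iff.1 hε
  rw [← Units.val_pow_eq_pow_val, ← Units.val_pow_eq_pow_val, Units.val_inj,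
    ZMod.natCast_eq_natCast_iff, hu.eq_orderOf, pow_eq_pow_iff_modEq]

theorem nsig_eq (hε : IsPrimitiveRoot ε p) {σ : K₁ ≃ₐ[K] K₁} {n : ℕ} (h : σ ε = ε ^ n) :
    nsig p ε σ = n := by
  have hex : ∃ n : ℕ, σ ε = ε ^ n := ⟨n, h⟩
  unfold nsig
  rw [dif_pos hex, ← eps_congr hε, ← hex.choose_spec, h]

theorem nsig_mul (hε : IsPrimitiveRoot ε p) (σ τ : K₁ ≃ₐ[K] K₁) :
    nsig p ε (σ * τ) = nsig p ε σ * nsig p ε τ := by
  obtain ⟨n, hn⟩ := exists_n hε σ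
  obtain ⟨m, hm⟩ := exists_n hε τ
  have h : (σ * τ) ε = ε ^ (n * m) := by
    show σ (τ ε) = _
    rw [hm, map_pow, hn, pow_mul]
  rw [nsig_eq hε hn, nsig_eq hε hm, nsig_eq hε h]
  push_cast
  rfl

theorem nsig_one (hε : IsPrimitiveRoot ε p) : nsig p ε (1 : K₁ ≃ₐ[K] K₁) = 1 := by
  have h : (1 : K₁ ≃ₐ[K] K₁) ε = ε ^ 1 := (pow_one ε).symm
  rw [nsig_eq hε h, Nat.cast_one]

theorem nsig_ne (hε : IsPrimitiveRoot ε p) (σ : K₁ ≃ₐ[K] K₁) : nsig p ε σ ≠ 0 := by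
  intro h
  have h1 := nsig_mul hε σ σ⁻¹
  rw [mul_inv_cancel, nsig_one hε, h, zero_mul] at h1
  exact one_ne_zero h1

theorem nsig_inv (hε : IsPrimitiveRoot ε p) (σ : K₁ ≃ₐ[K] K₁) :
    nsig p ε σ⁻¹ = (nsig p ε σ)⁻¹ := by
  have h1 := nsig_mul hε σ σ⁻¹
  rw [mul_inv_cancel, nsig_one hε] at h1
  exact (inv_eq_of_mul_eq_one_right h1.symm).symm

/-- Type `ω` for units. -/
theorem om_iff (hε : IsPrimitiveRoot ε p) (a : K₁ˣ) : OmType p K ε (a : K₁) ↔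
    ∀ (τ : K₁ ≃ₐ[K] K₁) (n : ℕ), nsig p ε τ = n → ∃ c : K₁ˣ, act τ a = a ^ n * c ^ p := by
  constructor
  · intro h τ n hn
    obtain ⟨n₀, c₀, h1, h2⟩ := h τ
    have hc : c₀ ≠ 0 := by
      rintro rfl
      rw [zero_pow hpF.out.ne_zero, mul_zero] at h2
      exact a.ne_zero ((map_eq_zero τ).1 h2)
    have h3 : (n₀ : ZMod p) = n := by rw [← nsig_eq hε h1, hn]
    obtain ⟨d, hd⟩ := pow_congr a h3
    refine ⟨d * Units.mk0 c₀ hc, ?_⟩
    rw [mul_pow, ← mul_assoc, ← hd]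
    apply Units.ext
    rw [Units.val_mul, Units.val_pow_eq_pow_val, Units.val_pow_eq_pow_val, Units.val_mk0]
    exact h2
  · intro h τ
    obtain ⟨n, hn⟩ := exists_n hε τ
    obtain ⟨c, hc⟩ := h τ n (nsig_eq hε hn)
    refine ⟨n, c, hn, ?_⟩
    have h1 : τ (a : K₁) = ((a ^ n * c ^ p : K₁ˣ) : K₁) :=
      congrArg (fun u : K₁ˣ => (u : K₁)) hc
    rw [h1, Units.val_mul, Units.val_pow_eq_pow_val, Units.val_pow_eq_pow_val]

theorem om_mul (hε : IsPrimitiveRoot ε p) {x y : K₁ˣ} (hx : OmType p K ε (x : K₁))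
    (hy : OmType p K ε (y : K₁)) : OmType p K ε ((x * y : K₁ˣ) : K₁) := by
  rw [om_iff hε] at hx hy ⊢
  intro τ n hn
  obtain ⟨c, hc⟩ := hx τ n hn
  obtain ⟨d, hd⟩ := hy τ n hn
  refine ⟨c * d, ?_⟩
  rw [map_mul, hc, hd, mul_pow, mul_pow, mul_mul_mul_comm]

theorem om_inv (hε : IsPrimitiveRoot ε p) {x : K₁ˣ} (hx : OmType p K ε (x : K₁)) :
    OmType p K ε ((x⁻¹ : K₁ˣ) : K₁) := by
  rw [om_iff hε] at hx ⊢
  intro τ n hn
  obtain ⟨c, hc⟩ := hx τ n hn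
  refine ⟨c⁻¹, ?_⟩
  rw [map_inv, hc, mul_inv, inv_pow, inv_pow]

theorem om_pow_kill {g : K₁ˣ → ZMod p} (hg : Hom g) {x : K₁ˣ} (hx : Pw p x) : g x = 0 := by
  obtain ⟨y, rfl⟩ := hx
  rw [hom_pow hg, nsmul_eq_mul, CharP.cast_eq_zero, zero_mul]

theorem hom_om (hε : IsPrimitiveRoot ε p) {f : K₁ˣ → ZMod p} (hf : Hom f) {a : K₁ˣ}
    (ha : OmType p K ε (a : K₁)) (σ : K₁ ≃ₐ[K] K₁) : f (act σ a) = nsig p ε σ * f a := by
  obtain ⟨n, hn⟩ := exists_n hε σ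
  have hn' := nsig_eq hε hn
  obtain ⟨c, hc⟩ := (om_iff hε a).1 ha σ n hn'
  rw [hc, hf, om_pow_kill hf ⟨c, rfl⟩, add_zero, hom_pow hf, nsmul_eq_mul, hn']

end

section main

variable {p : ℕ} [hpF : Fact p.Prime] {K K₁ : Type} [Field K] [Field K₁] [Algebra K K₁]
  [FiniteDimensional K K₁] {ε : K₁}

theorem wf_om (hε : IsPrimitiveRoot ε p) {f : K₁ˣ → ZMod p} (hf : Hom f) :
    IsOm p K ε (wf p K ε f) := by
  constructor
  · intro x y
    unfold wf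
    rw [← Finset.sum_add_distrib]
    refine Finset.sum_congr rfl fun σ _ => ?_
    rw [map_mul, hf, mul_add]
  · intro τ n hn x
    have hn' := nsig_eq hε hn
    unfold wf
    rw [Finset.mul_sum]
    refine Fintype.sum_equiv (Equiv.mulRight τ) _ _ fun σ => ?_
    show _ = (n : ZMod p) * ((nsig p ε (σ * τ))⁻¹ * f (act σ (act τ x)))
    rw [nsig_mul hε, mul_inv, hn']
    have h0 : (n : ZMod p) ≠ 0 := by
      rw [← hn']
      exact nsig_ne hε τ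
    field_simp

theorem card_gal [IsGalois K K₁] : (Fintype.card (K₁ ≃ₐ[K] K₁)) = finrank K K₁ := by
  rw [← Nat.card_eq_fintype_card, IsGalois.card_aut_eq_finrank]

theorem wf_val [IsGalois K K₁] (hε : IsPrimitiveRoot ε p) {f : K₁ˣ → ZMod p} (hf : Hom f)
    {a : K₁ˣ} (ha : OmType p K ε (a : K₁)) : wf p K ε f a = (finrank K K₁ : ZMod p) * f a := by
  unfold wf
  have h1 : ∀ σ : K₁ ≃ₐ[K] K₁, (nsig p ε σ)⁻¹ * f (act σ a) = f a := by
    intro σ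
    rw [hom_om hε hf ha, inv_mul_cancel_left₀ (nsig_ne hε σ)]
  rw [Finset.sum_congr rfl (fun σ _ => h1 σ), Finset.sum_const, Finset.card_univ, card_gal,
    nsmul_eq_mul]

/-- The exponents of the projection to type `ω`. -/
noncomputable def kk (p : ℕ) [Fact p.Prime] (K : Type) {K₁ : Type} [Field K] [Field K₁]
    [Algebra K K₁] (ε : K₁) (σ : K₁ ≃ₐ[K] K₁) : ℕ :=
  ((finrank K K₁ : ZMod p)⁻¹ * (nsig p ε σ)⁻¹).val

/-- The projection to type `ω`. -/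
noncomputable def pr (p : ℕ) [Fact p.Prime] (K : Type) {K₁ : Type} [Field K] [Field K₁]
    [Algebra K K₁] [FiniteDimensional K K₁] (ε : K₁) (x : K₁ˣ) : K₁ˣ :=
  ∏ σ : K₁ ≃ₐ[K] K₁, act σ x ^ kk p K ε σ

omit [FiniteDimensional K K₁] in
theorem kk_cast (σ : K₁ ≃ₐ[K] K₁) :
    (kk p K ε σ : ZMod p) = (finrank K K₁ : ZMod p)⁻¹ * (nsig p ε σ)⁻¹ := by
  unfold kk
  rw [ZMod.natCast_zmod_val]

theorem pr_om (hε : IsPrimitiveRoot ε p) (x : K₁ˣ) : OmType p K ε (pr p K ε x : K₁) := by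
  rw [om_iff hε]
  intro τ n hn
  have h1 : ∀ ρ : K₁ ≃ₐ[K] K₁, ∃ d : K₁ˣ,
      act ρ x ^ kk p K ε (τ⁻¹ * ρ) = act ρ x ^ (kk p K ε ρ * n) * d ^ p := by
    intro ρ
    apply pow_congr
    push_cast
    rw [kk_cast, kk_cast, nsig_mul hε, nsig_inv hε, mul_inv, inv_inv, ← hn]
    ring
  choose d hd using h1
  refine ⟨∏ ρ, d ρ, ?_⟩
  have h2 : act τ (pr p K ε x) = ∏ ρ : K₁ ≃ₐ[K] K₁, act ρ x ^ kk p K ε (τ⁻¹ * ρ) := by
    unfold pr
    rw [map_prod]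
    refine Fintype.prod_equiv (Equiv.mulLeft τ) _ _ fun σ => ?_
    rw [map_pow]
    show act τ (act σ x) ^ _ = act τ (act σ x) ^ kk p K ε (τ⁻¹ * (τ * σ))
    rw [inv_mul_cancel_left]
  rw [h2, Finset.prod_congr rfl (fun ρ _ => hd ρ), Finset.prod_mul_distrib, Finset.prod_pow]
  congr 1
  unfold pr
  rw [← Finset.prod_pow]
  refine Finset.prod_congr rfl fun ρ _ => ?_
  rw [pow_mul]

omit [FiniteDimensional K K₁] in
theorem deg_ne (hcop : (finrank K K₁).Coprime p) : (finrank K K₁ : ZMod p) ≠ 0 := by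
  rw [Ne, ZMod.natCast_eq_zero_iff]
  intro h
  exact hpF.out.one_lt.ne' (Nat.eq_one_of_dvd_coprimes hcop h dvd_rfl)

theorem pr_val [IsGalois K K₁] (hε : IsPrimitiveRoot ε p) (hcop : (finrank K K₁).Coprime p)
    {g : K₁ˣ → ZMod p} (hg : IsOm p K ε g) (x : K₁ˣ) : g (pr p K ε x) = g x := by
  unfold pr
  rw [hom_prod hg.1]
  have h1 : ∀ σ : K₁ ≃ₐ[K] K₁, g (act σ x ^ kk p K ε σ) = (finrank K K₁ : ZMod p)⁻¹ * g x := by
    intro σ
    obtain ⟨n, hn⟩ := exists_n hε σ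
    have hn' := nsig_eq hε hn
    rw [hom_pow hg.1, nsmul_eq_mul, kk_cast, hg.2 σ n hn, ← hn', ← mul_assoc,
      inv_mul_cancel_right₀ (nsig_ne hε σ)]
  rw [Finset.sum_congr rfl (fun σ _ => h1 σ), Finset.sum_const, Finset.card_univ, card_gal,
    nsmul_eq_mul, mul_inv_cancel_left₀ (deg_ne hcop)]

/-- The projection does not change elements of type `ω`, up to `p`-th powers. -/
theorem pr_id [IsGalois K K₁] (hε : IsPrimitiveRoot ε p) (hcop : (finrank K K₁).Coprime p)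
    {b : K₁ˣ} (hb : OmType p K ε (b : K₁)) : ∃ c : K₁ˣ, pr p K ε b = b * c ^ p := by
  have h1 : ∀ σ : K₁ ≃ₐ[K] K₁, ∃ c : K₁ˣ,
      act σ b ^ kk p K ε σ = b ^ ((nsig p ε σ).val * kk p K ε σ) * c ^ p := by
    intro σ
    obtain ⟨c, hc⟩ := (om_iff hε b).1 hb σ (nsig p ε σ).val
      (ZMod.natCast_zmod_val (nsig p ε σ)).symm
    refine ⟨c ^ kk p K ε σ, ?_⟩
    rw [hc, mul_pow, ← pow_mul, ← pow_mul, ← pow_mul, mul_comm p]
  choose c hc using h1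
  have h2 : ((∑ σ : K₁ ≃ₐ[K] K₁, (nsig p ε σ).val * kk p K ε σ : ℕ) : ZMod p) =
      ((1 : ℕ) : ZMod p) := by
    push_cast
    have h3 : ∀ σ : K₁ ≃ₐ[K] K₁, (((nsig p ε σ).val : ℕ) : ZMod p) * (kk p K ε σ : ZMod p) =
        (finrank K K₁ : ZMod p)⁻¹ := by
      intro σ
      rw [ZMod.natCast_zmod_val, kk_cast, mul_comm, mul_assoc,
        inv_mul_cancel₀ (nsig_ne hε σ), mul_one]
    rw [Finset.sum_congr rfl (fun σ _ => h3 σ), Finset.sum_const, Finset.card_univ, card_gal,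
      nsmul_eq_mul, mul_inv_cancel₀ (deg_ne hcop)]
  obtain ⟨d, hd⟩ := pow_congr b h2
  refine ⟨d * ∏ σ, c σ, ?_⟩
  unfold pr
  rw [Finset.prod_congr rfl (fun σ _ => hc σ), Finset.prod_mul_distrib, Finset.prod_pow,
    Finset.prod_pow_eq_pow_sum, hd, pow_one, mul_pow, mul_assoc]

end main

theorem p_omg : Pool.Agent.Helper42.PP.P_OMG := by
  intro p hpF K K₁ _ _ _ _ _ _ ε hε hgen hcop
  have hfd : FiniteDimensional K K₁ := Module.Finite.of_restrictScalars_finite ℚ K K₁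
  refine ⟨fun f hf => ⟨wf_om hε hf, fun a ha => wf_val hε hf ha⟩,
    fun g hg x hx => om_pow_kill hg.1 hx, ?_, ?_,
    fun x y hx hy => ⟨om_mul hε hx hy, om_inv hε hx⟩⟩
  · intro x
    refine ⟨pr p K ε x, pr_om hε x, fun g hg => pr_val hε hcop hg x, ?_⟩
    intro G hG
    have hmem : ∀ y ∈ G, pr p K ε y ∈ G := fun y hy =>
      Subgroup.prod_mem G fun σ _ => G.pow_mem (hG σ y hy) _
    refine ⟨hmem x, ?_⟩
    rintro hpw ⟨b, hb, hxb⟩
    obtain ⟨c, hc⟩ := pr_id hε hcop hb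
    have h1 : pr p K ε x = pr p K ε (x / b) * pr p K ε b := by
      unfold pr
      rw [← Finset.prod_mul_distrib]
      refine Finset.prod_congr rfl fun σ _ => ?_
      rw [← mul_pow, ← map_mul, div_mul_cancel]
    have h2 : pr p K ε x / x = pr p K ε (x / b) * c ^ p * (x / b)⁻¹ := by
      rw [h1, hc, inv_div, mul_comm b, ← mul_assoc, mul_div_assoc]
    rw [h2]
    exact G.mul_mem (G.mul_mem (hmem _ hxb) (hpw _ ⟨c, rfl⟩)) (G.inv_mem hxb)
  · intro x hx Q hQ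
    unfold FreeP at hQ
    push Not at hQ
    obtain ⟨σ, hσ, hne⟩ := hQ
    obtain ⟨n, hn⟩ := exists_n hε σ
    obtain ⟨c, hc⟩ := (om_iff hε x).1 hx σ n (nsig_eq hε hn)
    have h1 : ordv Q (σ (x : K₁)) = ordv Q (x : K₁) := by
      unfold ordv
      rw [hσ]
    have h2 : σ (x : K₁) = (x : K₁) ^ n * (c : K₁) ^ p := by
      have h3 : σ (x : K₁) = ((x ^ n * c ^ p : K₁ˣ) : K₁) :=
        congrArg (fun u : K₁ˣ => (u : K₁)) hc
      rw [h3, Units.val_mul, Units.val_pow_eq_pow_val, Units.val_pow_eq_pow_val]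
    rw [h2, ordv_mul Q (pow_ne_zero _ x.ne_zero) (pow_ne_zero _ c.ne_zero),
      ordv_pow Q x.ne_zero, ordv_pow Q c.ne_zero] at h1
    have h3 : (p : ℤ) ∣ ((n : ℤ) - 1) * ordv Q (x : K₁) :=
      ⟨-ordv Q (c : K₁), by linear_combination h1⟩
    have hpi : Prime (p : ℤ) := Nat.prime_iff_prime_int.1 hpF.out
    rcases hpi.dvd_or_dvd h3 with h | h
    · exfalso
      apply hne
      apply hgen
      rw [hn]
      have h4 : (n : ZMod p) = ((1 : ℕ) : ZMod p) := by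
        have h5 : (((n : ℤ) - 1 : ℤ) : ZMod p) = 0 := by
          rw [ZMod.intCast_zmod_eq_zero_iff_dvd]
          exact h
        push_cast at h5 ⊢
        exact sub_eq_zero.1 h5
      rw [(eps_congr hε).2 h4, pow_one]
    · exact h

end Pool.Agent.Helper22.PP
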