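import Pool.Agent.Helper17.PP.GoalsC1

/-!
# Project PP (MP_fc6b1e_nt), packet C_DEC: decompositions of sums over finite sets
-/

namespace Pool.Agent.Helper22.PP

open Finset Pool.Agent.Helper17.PP

theorem c_dec : Pool.Agent.Helper17.PP.C_DEC := by
  classical
  intro B P
  refine ⟨?_, ?_, ?_⟩
  · intro G _ F
    rw [Finset.sum_sigma', Finset.sum_sigma']
    refine Finset.sum_bij' (fun x _ => ⟨x.1.erase x.2, x.2⟩) (fun y _ => ⟨insert y.2 y.1, y.2⟩)
      ?_ ?_ ?_ ?_ ?_
    · rintro ⟨b, q⟩ h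
      simp only [mem_sigma, mem_powerset, mem_sdiff] at h ⊢
      exact ⟨(Finset.erase_subset _ _).trans h.1, h.1 h.2, Finset.notMem_erase _ _⟩
    · rintro ⟨r, q⟩ h
      simp only [mem_sigma, mem_powerset, mem_sdiff] at h ⊢
      exact ⟨Finset.insert_subset h.2.1 h.1, Finset.mem_insert_self _ _⟩
    · rintro ⟨b, q⟩ h
      simp only [mem_sigma, mem_powerset] at h
      simp only [Finset.insert_erase h.2]
    · rintro ⟨r, q⟩ h
      simp only [mem_sigma, mem_powerset, mem_sdiff] at h
      simp only [Finset.erase_insert h.2.2]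
    · rintro ⟨b, q⟩ h
      rfl
  · intro G _ F
    rw [Finset.sum_sigma', Finset.sum_sigma']
    refine Finset.sum_bij' (fun x _ => ⟨x.1 \ x.2, x.2⟩) (fun y _ => ⟨y.1 ∪ y.2, y.2⟩)
      ?_ ?_ ?_ ?_ ?_
    · rintro ⟨b, D⟩ h
      simp only [mem_sigma, mem_powerset] at h ⊢
      refine ⟨Finset.sdiff_subset.trans h.1, ?_⟩
      intro x hx
      rw [mem_sdiff, mem_sdiff]
      exact ⟨h.1 (h.2 hx), fun hh => hh.2 hx⟩
    · rintro ⟨r, D⟩ h
      simp only [mem_sigma, mem_powerset] at h ⊢
      exact ⟨Finset.union_subset h.1 (h.2.trans Finset.sdiff_subset), Finset.subset_union_right⟩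
    · rintro ⟨b, D⟩ h
      simp only [mem_sigma, mem_powerset] at h
      simp only [Finset.sdiff_union_of_subset h.2]
    · rintro ⟨r, D⟩ h
      simp only [mem_sigma, mem_powerset] at h
      have h1 : Disjoint r D := by
        rw [Finset.disjoint_left]
        intro x hx hD
        exact (mem_sdiff.1 (h.2 hD)).2 hx
      simp only [Finset.union_sdiff_cancel_right h1]
    · rintro ⟨b, D⟩ h
      rfl
  · intro f
    rw [Finset.prod_one_add]

end Pool.Agent.Helper22.PP
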