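import Pool.Agent.Helper11.PP.GoalsD
import Pool.Agent.Helper40.RD.TRF
import Pool.Agent.Helper90.LE.CYC
import Pool.Agent.Helper86.LE.FCNT

/-!
# Project PP (MP_fc6b1e_nt), packet DPRD: products of Kummer generators and ramification
-/

namespace Pool.Agent.Helper22.PP

open NumberField Polynomial Module IsDedekindDomain
open Pool.Agent.Helper51.RP Pool.Agent.Helper11.LE Pool.Agent.Helper11.PP
open Pool.Agent.Helper40.RS (bel efg lies)
open Pool.Agent.Helper40.RD (bel_of_above)
open scoped Pointwise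

section ram

variable {Y X : Type} [Field Y] [NumberField Y] [Field X] [NumberField X] [Algebra Y X]
  [IsGalois Y X]

/-- The inertia group is trivial exactly for the unramified primes. -/
theorem inertia_iff (W : HeightOneSpectrum (𝓞 X)) :
    (∀ g : X ≃ₐ[Y] X, (∀ y : 𝓞 X, g • y - y ∈ W.asIdeal) → g = 1) ↔
      ¬ (bel Y W).asIdeal.map (algebraMap (𝓞 Y) (𝓞 X)) ≤ W.asIdeal ^ 2 := by
  have hw : (bel Y W).asIdeal.IsMaximal := (bel Y W).isMaximal
  have hfin : Finite ((bel Y W).asIdeal.ResidueField) := by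
    have : Finite (𝓞 Y ⧸ (bel Y W).asIdeal) :=
      Ideal.finiteQuotientOfFreeOfNeBot _ (bel Y W).ne_bot
    exact Finite.of_surjective _
      ((bel Y W).asIdeal.bijective_algebraMap_quotient_residueField).surjective
  have hperf : PerfectField ((bel Y W).asIdeal.ResidueField) := PerfectField.ofFinite
  have h1 := Ideal.card_inertia_eq_ramificationIdxIn (R := 𝓞 Y) (S := 𝓞 X) (G := X ≃ₐ[Y] X)
    (bel Y W).asIdeal W.asIdeal
  rw [Ideal.ramificationIdxIn_eq_ramificationIdx (bel Y W).asIdeal W.asIdeal (X ≃ₐ[Y] X),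
    ← Ideal.ramificationIdx'_eq_ramificationIdx _ _ (bel Y W).ne_bot] at h1
  have hle : (bel Y W).asIdeal.map (algebraMap (𝓞 Y) (𝓞 X)) ≤ W.asIdeal :=
    Ideal.map_le_iff_le_comap.2 le_rfl
  rw [← Ideal.ramificationIdx'_ne_one_iff hle, not_not, ← h1, Nat.card_eq_one_iff_unique]
  constructor
  · intro key
    refine ⟨⟨?_⟩, ⟨1⟩⟩
    rintro ⟨a, ha⟩ ⟨b, hb⟩
    rw [Subtype.mk.injEq, key a ha, key b hb]
  · rintro ⟨hs, -⟩ g hg
    have h2 := hs.elim (⟨g, hg⟩ : W.asIdeal.inertia (X ≃ₐ[Y] X)) 1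
    exact congrArg Subtype.val h2

end ram

theorem exists_above {M M' : Type} [Field M] [NumberField M] [Field M'] [NumberField M']
    [Algebra M M'] (w : HeightOneSpectrum (𝓞 M)) : ∃ W : HeightOneSpectrum (𝓞 M'), Ab W w := by
  have hm : w.asIdeal.IsMaximal := w.isMaximal
  obtain ⟨Q, hQ1, hQ2⟩ := Ideal.exists_maximal_ideal_liesOver_of_isIntegral (S := 𝓞 M') w.asIdeal
  have hne : Q ≠ ⊥ := Ideal.ne_bot_of_liesOver_of_ne_bot w.ne_bot Q
  exact ⟨⟨Q, hQ1.isPrime, hne⟩, hQ2.over.symm⟩

section tower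

variable {K N L : Type} [Field K] [NumberField K] [Field N] [NumberField N] [Field L]
  [NumberField L] [Algebra K N] [Algebra K L] [Algebra N L] [IsScalarTower K N L]

theorem bel_bel (W : HeightOneSpectrum (𝓞 L)) : bel K (bel N W) = bel K W := by
  apply HeightOneSpectrum.ext
  show ((W.asIdeal.comap (algebraMap (𝓞 N) (𝓞 L))).comap (algebraMap (𝓞 K) (𝓞 N))) =
    W.asIdeal.comap (algebraMap (𝓞 K) (𝓞 L))
  rw [Ideal.comap_comap, ← IsScalarTower.algebraMap_eq]

/-- An element of the inertia group which is not trivial on `N`. -/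
theorem ram_of_inertia [IsGalois K N] (W : HeightOneSpectrum (𝓞 L)) (g : L ≃ₐ[K] L)
    (hg : ∀ y : 𝓞 L, g • y - y ∈ W.asIdeal)
    (hne : ¬ ∀ x : N, g (algebraMap N L x) = algebraMap N L x) : RamIn N (bel K W) := by
  refine ⟨bel N W, ?_, ?_⟩
  · show ((W.asIdeal.comap (algebraMap (𝓞 N) (𝓞 L))).comap (algebraMap (𝓞 K) (𝓞 N))) =
      W.asIdeal.comap (algebraMap (𝓞 K) (𝓞 L))
    rw [Ideal.comap_comap, ← IsScalarTower.algebraMap_eq]
  · by_contra hcon
    rw [← bel_bel (N := N)] at hcon
    have h1 := (inertia_iff (Y := K) (bel N W)).2 hcon (g.restrictNormal N) (by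
      intro y
      show algebraMap (𝓞 N) (𝓞 L) (g.restrictNormal N • y - y) ∈ W.asIdeal
      have h2 : algebraMap (𝓞 N) (𝓞 L) (g.restrictNormal N • y - y) =
          g • (algebraMap (𝓞 N) (𝓞 L) y) - algebraMap (𝓞 N) (𝓞 L) y := by
        rw [map_sub]
        congr 1
        apply RingOfIntegers.ext
        exact g.restrictNormal_commutes N (y : N)
      rw [h2]
      exact hg _)
    apply hne
    intro x
    rw [← g.restrictNormal_commutes N x, h1]
    rfl

omit [NumberField K] [NumberField N] [NumberField L] in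
theorem map_le_sq {v : HeightOneSpectrum (𝓞 K)} {V : HeightOneSpectrum (𝓞 N)}
    {W : HeightOneSpectrum (𝓞 L)} (hW : Ab W V)
    (h : v.asIdeal.map (algebraMap (𝓞 K) (𝓞 N)) ≤ V.asIdeal ^ 2) :
    v.asIdeal.map (algebraMap (𝓞 K) (𝓞 L)) ≤ W.asIdeal ^ 2 := by
  rw [IsScalarTower.algebraMap_eq (𝓞 K) (𝓞 N) (𝓞 L), ← Ideal.map_map]
  refine (Ideal.map_mono h).trans ?_
  rw [Ideal.map_pow]
  apply Ideal.pow_right_mono
  rw [Ideal.map_le_iff_le_comap]
  exact hW.ge

end tower

/-- A prime ramified in a subfield of the compositum of `N` and `N'` is ramified in `N` or `N'`. -/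
theorem ram_sup {K N N' N'' L : Type} [Field K] [NumberField K] [Field N] [NumberField N]
    [Field N'] [NumberField N'] [Field N''] [NumberField N''] [Field L] [NumberField L]
    [Algebra K N] [Algebra K N'] [Algebra K N''] [Algebra K L] [Algebra N L] [Algebra N' L]
    [Algebra N'' L] [IsScalarTower K N L] [IsScalarTower K N' L] [IsScalarTower K N'' L]
    [IsGalois K N] [IsGalois K N'] [IsGalois K L]
    (hgen : ∀ g : L ≃ₐ[K] L, (∀ x : N, g (algebraMap N L x) = algebraMap N L x) →
      (∀ x : N', g (algebraMap N' L x) = algebraMap N' L x) → g = 1)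
    (v : HeightOneSpectrum (𝓞 K)) (h : RamIn N'' v) : RamIn N v ∨ RamIn N' v := by
  obtain ⟨V, hV, hle⟩ := h
  obtain ⟨W, hW⟩ := exists_above (M' := L) V
  have hv : bel K W = v := by
    rw [← bel_bel (N := N'')]
    have h1 : bel N'' W = V := bel_of_above hW
    rw [h1]
    exact bel_of_above hV
  have h2 := map_le_sq hW hle
  rw [← hv] at h2
  by_contra hcon
  push Not at hcon
  refine (inertia_iff (Y := K) W).1 ?_ h2
  intro g hg
  apply hgen
  · by_contra h3
    apply hcon.1
    rw [← hv]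
    exact ram_of_inertia W g hg h3
  · by_contra h3
    apply hcon.2
    rw [← hv]
    exact ram_of_inertia W g hg h3

section galois

theorem fix_sup {K Ω : Type} [Field K] [Field Ω] [Algebra K Ω] {F F' : IntermediateField K Ω}
    {g : Ω ≃ₐ[K] Ω} (h : ∀ y ∈ F, g y = y) (h' : ∀ y ∈ F', g y = y) : ∀ y ∈ F ⊔ F', g y = y := by
  have h1 : g ∈ (F ⊔ F').fixingSubgroup := by
    rw [IntermediateField.fixingSubgroup_sup]
    exact ⟨(IntermediateField.mem_fixingSubgroup_iff F g).2 h,
      (IntermediateField.mem_fixingSubgroup_iff F' g).2 h'⟩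
  exact (IntermediateField.mem_fixingSubgroup_iff _ g).1 h1

theorem le_of_fix {K Ω : Type} [Field K] [Field Ω] [Algebra K Ω] [IsGalois K Ω]
    {F F' : IntermediateField K Ω}
    (h : ∀ g : Ω ≃ₐ[K] Ω, (∀ y ∈ F, g y = y) → ∀ y ∈ F', g y = y) : F' ≤ F := by
  intro x hx
  rw [← InfiniteGalois.fixedField_fixingSubgroup F, IntermediateField.mem_fixedField_iff]
  intro g hg
  exact h g ((IntermediateField.mem_fixingSubgroup_iff F g).1 hg) x hx

theorem pow_fix {K K₁ : Type} [Field K] [NumberField K] [Field K₁] [NumberField K₁]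
    [Algebra K K₁] [IsGalois K K₁] (j : K₁ →+* AlgebraicClosure K)
    (hj : ∀ x : K, j (algebraMap K K₁ x) = algebraMap K (AlgebraicClosure K) x)
    (g : AlgebraicClosure K ≃ₐ[K] AlgebraicClosure K) (x : K₁) :
    (g ^ finrank K K₁) (j x) = j x := by
  let _ : Algebra K₁ (AlgebraicClosure K) := j.toAlgebra
  have htow : IsScalarTower K K₁ (AlgebraicClosure K) := IsScalarTower.of_algebraMap_eq
    (fun x => (hj x).symm)
  have h1 : AlgEquiv.restrictNormalHom K₁ (g ^ finrank K K₁) = 1 := by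
    rw [map_pow, ← IsGalois.card_aut_eq_finrank K K₁]
    exact pow_card_eq_one'
  have h2 := (g ^ finrank K K₁).restrictNormal_commutes K₁ x
  have h3 : (g ^ finrank K K₁).restrictNormal K₁ = 1 := h1
  rw [h3] at h2
  exact h2.symm

/-- The `p`-th roots of `a` generate `N K₁`. -/
theorem le_adjoin {K K₁ : Type} [Field K] [NumberField K] [Field K₁] [NumberField K₁]
    [Algebra K K₁] {p : ℕ} (hp : p.Prime) (j : K₁ →+* AlgebraicClosure K)
    (hj : ∀ x : K, j (algebraMap K K₁ x) = algebraMap K (AlgebraicClosure K) x)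
    {N : IntermediateField K (AlgebraicClosure K)} (hN : finrank K N = p) {a : K₁ˣ}
    (ha : ¬ Pw p a) (hG : Gen p j a N) {t : AlgebraicClosure K} (ht : t ^ p = j (a : K₁))
    (g : AlgebraicClosure K ≃ₐ[K] AlgebraicClosure K) (hg1 : ∀ x, g (j x) = j x)
    (hgt : g t = t) : ∀ y ∈ N, g y = y := by
  have hfd : FiniteDimensional K K₁ := Module.Finite.of_restrictScalars_finite ℚ K K₁
  let jA : K₁ →ₐ[K] AlgebraicClosure K := { j with commutes' := hj }
  set F : IntermediateField K (AlgebraicClosure K) := jA.fieldRange with hF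
  let e : K₁ ≃ₐ[K] F := AlgEquiv.ofInjectiveField jA
  have he : ∀ x, ((e x : F) : AlgebraicClosure K) = j x := fun _ => rfl
  have hfd' : FiniteDimensional K F := e.toLinearEquiv.finiteDimensional
  have hgF : ∀ y ∈ F, g y = y := by
    rintro y ⟨x, rfl⟩
    exact hg1 x
  have hNf : FiniteDimensional K N := FiniteDimensional.of_finrank_pos (by rw [hN]; exact hp.pos)
  set a₀ : F := e (a : K₁) with ha₀def
  have ha₀ : ∀ y : F, y ^ p ≠ a₀ := by
    intro y hy
    apply ha
    have hy1 : (e.symm y) ^ p = (a : K₁) := by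
      rw [← map_pow, hy, ha₀def, AlgEquiv.symm_apply_apply]
    have hy0 : e.symm y ≠ 0 := by
      intro h0
      rw [h0, zero_pow hp.ne_zero] at hy1
      exact a.ne_zero hy1.symm
    refine ⟨Units.mk0 _ hy0, Units.ext ?_⟩
    rw [Units.val_pow_eq_pow_val, Units.val_mk0, hy1]
  have htN : t ∈ N ⊔ F := by
    rw [← InfiniteGalois.fixedField_fixingSubgroup (N ⊔ F), IntermediateField.mem_fixedField_iff]
    intro g' hg'
    rw [IntermediateField.mem_fixingSubgroup_iff] at hg'
    exact hG t ht g' (fun y hy => hg' y ((le_sup_left : N ≤ N ⊔ F) hy))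
      (fun x => hg' _ ((le_sup_right : F ≤ N ⊔ F) ⟨x, rfl⟩))
  have hirr : Irreducible (X ^ p - C a₀ : F[X]) := X_pow_sub_C_irreducible_of_prime hp ha₀
  have hmon : (X ^ p - C a₀ : F[X]).Monic := monic_X_pow_sub_C a₀ hp.ne_zero
  have hroot : aeval t (X ^ p - C a₀ : F[X]) = 0 := by
    simp only [map_sub, map_pow, aeval_X, aeval_C]
    rw [ht, sub_eq_zero]
    rfl
  have hmin : minpoly F t = X ^ p - C a₀ :=
    (minpoly.eq_of_irreducible_of_monic hirr hroot hmon).symm
  have hint : IsIntegral F t := ⟨X ^ p - C a₀, hmon, by simpa [aeval_def] using hroot⟩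
  have hfr : finrank F (IntermediateField.adjoin F {t}) = p := by
    rw [IntermediateField.adjoin.finrank hint, hmin, natDegree_X_pow_sub_C]
  have hEf : FiniteDimensional F (IntermediateField.adjoin F {t}) :=
    FiniteDimensional.of_finrank_pos (by rw [hfr]; exact hp.pos)
  set E : IntermediateField K (AlgebraicClosure K) :=
    IntermediateField.restrictScalars K (IntermediateField.adjoin F {t}) with hE
  have hEeq : E = F ⊔ IntermediateField.adjoin K {t} := by
    rw [hE, IntermediateField.restrictScalars_adjoin_eq_sup]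
  have hEle : E ≤ N ⊔ F := by
    rw [hEeq]
    refine sup_le le_sup_right ?_
    rw [IntermediateField.adjoin_simple_le_iff]
    exact htN
  have hEr : finrank K E = finrank K F * p := by
    rw [← hfr]
    exact (Module.finrank_mul_finrank K F (IntermediateField.adjoin F {t})).symm
  have hle : finrank K ↥(N ⊔ F) ≤ finrank K E := by
    rw [hEr, mul_comm, ← hN]
    exact IntermediateField.finrank_sup_le N F
  have heq : E = N ⊔ F := IntermediateField.eq_of_le_of_finrank_le hEle hle
  have hgt' : ∀ y ∈ IntermediateField.adjoin K {t}, g y = y := by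
    have h1 : IntermediateField.adjoin K {t} ≤
        IntermediateField.fixedField (Subgroup.zpowers g) := by
      rw [IntermediateField.adjoin_simple_le_iff, IntermediateField.mem_fixedField_iff]
      intro f hf
      obtain ⟨n, rfl⟩ := Subgroup.mem_zpowers_iff.1 hf
      have h8 : g ∈ MulAction.stabilizer (AlgebraicClosure K ≃ₐ[K] AlgebraicClosure K) t := by
        rw [MulAction.mem_stabilizer_iff]; exact hgt
      exact Subgroup.zpow_mem _ h8 n
    intro y hy
    exact (IntermediateField.mem_fixedField_iff _ y).1 (h1 hy) g (Subgroup.mem_zpowers g)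
  intro y hy
  have h2 : y ∈ F ⊔ IntermediateField.adjoin K {t} := by
    rw [← hEeq, heq]
    exact (le_sup_left : N ≤ N ⊔ F) hy
  exact fix_sup hgF hgt' y h2

/-- The field of a product is contained in the compositum. -/
theorem le_sup {K K₁ : Type} [Field K] [NumberField K] [Field K₁] [NumberField K₁]
    [Algebra K K₁] {p : ℕ} [Fact p.Prime] {ε : K₁} (hC : Cyc p K K₁ ε)
    (j : K₁ →+* AlgebraicClosure K)
    (hj : ∀ x : K, j (algebraMap K K₁ x) = algebraMap K (AlgebraicClosure K) x)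
    {N N' N'' : IntermediateField K (AlgebraicClosure K)} (hN : finrank K N'' = p)
    [IsGalois K N''] {a a' : K₁ˣ} (ha : ¬ Pw p (a * a')) (h1 : Gen p j a N)
    (h2 : Gen p j a' N') (h3 : Gen p j (a * a') N'') : N'' ≤ N ⊔ N' := by
  have hp : p.Prime := Fact.out
  have := hC.gal
  apply le_of_fix
  intro g hg
  obtain ⟨s, hs⟩ := IsAlgClosed.exists_pow_nat_eq (j (a : K₁)) (n := p) hp.pos
  obtain ⟨s', hs'⟩ := IsAlgClosed.exists_pow_nat_eq (j (a' : K₁)) (n := p) hp.pos
  have hgn : ∀ y ∈ N ⊔ N', (g ^ finrank K K₁) y = y := by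
    have h5 : g ∈ (N ⊔ N').fixingSubgroup := (IntermediateField.mem_fixingSubgroup_iff _ g).2 hg
    exact (IntermediateField.mem_fixingSubgroup_iff _ _).1 (Subgroup.pow_mem _ h5 _)
  have hgj := pow_fix j hj g
  have hst : (g ^ finrank K K₁) (s * s') = s * s' := by
    rw [map_mul, h1 s hs _ (fun y hy => hgn y ((le_sup_left : N ≤ N ⊔ N') hy)) hgj,
      h2 s' hs' _ (fun y hy => hgn y ((le_sup_right : N' ≤ N ⊔ N') hy)) hgj]
  have hfix := le_adjoin hp j hj hN ha h3 (t := s * s')
    (by rw [mul_pow, hs, hs', ← map_mul, Units.val_mul]) _ hgj hst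
  have hNf : FiniteDimensional K N'' := FiniteDimensional.of_finrank_pos (by rw [hN]; exact hp.pos)
  set ρ : N'' ≃ₐ[K] N'' := AlgEquiv.restrictNormalHom N'' g with hρ
  have hρn : ρ ^ finrank K K₁ = 1 := by
    rw [hρ, ← map_pow]
    ext y
    have h6 := (g ^ finrank K K₁).restrictNormal_commutes N'' y
    have h7 := hfix (y : AlgebraicClosure K) y.2
    exact h6.trans h7
  have hρp : ρ ^ p = 1 := by
    rw [← hN, ← IsGalois.card_aut_eq_finrank K N'']
    exact pow_card_eq_one'
  have hcop := (Pool.Agent.Helper90.LE.l_cyc p K K₁ ε hC).2.1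
  have hρ1 : ρ = 1 := by
    rw [← orderOf_eq_one_iff]
    exact Nat.eq_one_of_dvd_coprimes hcop (orderOf_dvd_of_pow_eq_one hρn)
      (orderOf_dvd_of_pow_eq_one hρp)
  intro y hy
  have h6 := g.restrictNormal_commutes N'' ⟨y, hy⟩
  have h7 : g.restrictNormal N'' = 1 := hρ1
  rw [h7] at h6
  exact h6.symm

end galois

theorem d_prd : Pool.Agent.Helper11.PP.D_PRD := by
  intro p hpF K K₁ _ _ _ _ _ ε hC j hj N hN N' hN' N'' hN'' a a' ha h1 h2 h3 v hv
  have hp : p.Prime := hpF.out
  obtain ⟨hNd, hNg⟩ := hN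
  obtain ⟨hNd', hNg'⟩ := hN'
  obtain ⟨hNd'', hNg''⟩ := hN''
  have hle : N'' ≤ N ⊔ N' := le_sup hC j hj hNd'' ha h1 h2 h3
  have hf : FiniteDimensional K N := FiniteDimensional.of_finrank_pos (by rw [hNd]; exact hp.pos)
  have hf' : FiniteDimensional K N' := FiniteDimensional.of_finrank_pos (by rw [hNd']; exact hp.pos)
  have hf'' : FiniteDimensional K N'' :=
    FiniteDimensional.of_finrank_pos (by rw [hNd'']; exact hp.pos)
  have hfL : FiniteDimensional K ↥(N ⊔ N') := inferInstance
  have hnf : NumberField N := NumberField.of_module_finite K N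
  have hnf' : NumberField N' := NumberField.of_module_finite K N'
  have hnf'' : NumberField N'' := NumberField.of_module_finite K N''
  have hnfL : NumberField ↥(N ⊔ N') := NumberField.of_module_finite K ↥(N ⊔ N')
  let _ : Algebra N ↥(N ⊔ N') := (IntermediateField.inclusion (le_sup_left : N ≤ N ⊔ N')).toAlgebra
  let _ : Algebra N' ↥(N ⊔ N') :=
    (IntermediateField.inclusion (le_sup_right : N' ≤ N ⊔ N')).toAlgebra
  let _ : Algebra N'' ↥(N ⊔ N') := (IntermediateField.inclusion hle).toAlgebra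
  have : IsScalarTower K N ↥(N ⊔ N') := IsScalarTower.of_algebraMap_eq (fun _ => rfl)
  have : IsScalarTower K N' ↥(N ⊔ N') := IsScalarTower.of_algebraMap_eq (fun _ => rfl)
  have : IsScalarTower K N'' ↥(N ⊔ N') := IsScalarTower.of_algebraMap_eq (fun _ => rfl)
  have hgalL : IsGalois K ↥(N ⊔ N') := inferInstance
  refine ram_sup (L := ↥(N ⊔ N')) (N'' := N'') ?_ v hv
  intro g g1 g2
  set G : AlgebraicClosure K ≃ₐ[K] AlgebraicClosure K := g.liftNormal (AlgebraicClosure K) with hG
  have hcom : ∀ x : ↥(N ⊔ N'), G (x : AlgebraicClosure K) = ((g x : ↥(N ⊔ N')) :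
      AlgebraicClosure K) := fun x => g.liftNormal_commutes (AlgebraicClosure K) x
  have hfix : ∀ y ∈ N ⊔ N', G y = y := by
    apply fix_sup
    · intro y hy
      have h4 := hcom ⟨y, (le_sup_left : N ≤ N ⊔ N') hy⟩
      have h5 := congrArg (fun z : ↥(N ⊔ N') => (z : AlgebraicClosure K)) (g1 ⟨y, hy⟩)
      exact h4.trans h5
    · intro y hy
      have h4 := hcom ⟨y, (le_sup_right : N' ≤ N ⊔ N') hy⟩
      have h5 := congrArg (fun z : ↥(N ⊔ N') => (z : AlgebraicClosure K)) (g2 ⟨y, hy⟩)
      exact h4.trans h5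
  ext x
  rw [← hcom, hfix x x.2]
  rfl

end Pool.Agent.Helper22.PP
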